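import Pool.Agent.V11169.Sync5

set_option autoImplicit false

namespace Pool.Agent.Results.MP_713645_co.DescExcSync

open Finset

/-- Number of descents of a permutation `π` of `{0, …, n-1}`: the number of positions `i` such that
`i + 1 < n` and `π i > π (i+1)`. -/
def des {n : ℕ} (π : Equiv.Perm (Fin n)) : ℕ :=
  (univ.filter (fun i : Fin n => ∃ j : Fin n, j.val = i.val + 1 ∧ π j < π i)).card

/-- Number of excedances of a permutation `π` of `{0, …, n-1}`. -/
def exc {n : ℕ} (π : Equiv.Perm (Fin n)) : ℕ :=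
  (univ.filter (fun i : Fin n => i < π i)).card

/-- Number of even permutations of `n` letters with `k` descents. -/
def APlus (n k : ℕ) : ℕ :=
  ((univ : Finset (Equiv.Perm (Fin n))).filter
    (fun π => Equiv.Perm.sign π = 1 ∧ des π = k)).card

/-- Number of odd permutations of `n` letters with `k` descents. -/
def AMinus (n k : ℕ) : ℕ :=
  ((univ : Finset (Equiv.Perm (Fin n))).filter
    (fun π => Equiv.Perm.sign π = -1 ∧ des π = k)).card

/-- Number of even permutations of `n` letters with `k` excedances. -/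
def P (n k : ℕ) : ℕ :=
  ((univ : Finset (Equiv.Perm (Fin n))).filter
    (fun π => Equiv.Perm.sign π = 1 ∧ exc π = k)).card

/-- Number of odd permutations of `n` letters with `k` excedances. -/
def Q (n k : ℕ) : ℕ :=
  ((univ : Finset (Equiv.Perm (Fin n))).filter
    (fun π => Equiv.Perm.sign π = -1 ∧ exc π = k)).card

/-- The sequences `(a 0, …, a N)` and `(b 0, …, b N)` are strongly synchronised. -/
def StronglySync (N : ℕ) (a b : ℕ → ℕ) : Prop :=
  ∀ k, 1 ≤ k → k + 1 ≤ N →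
    max (a (k - 1)) (b (k - 1)) * max (a (k + 1)) (b (k + 1)) ≤ (min (a k) (b k)) ^ 2

/-- For every `n ≥ 1`: the sequences `(A⁺_{n,k})` and `(P_{n,k})` are strongly synchronised, the
sequences `(A⁻_{n,k})` and `(Q_{n,k})` are strongly synchronised (Q1 and Q2), and so are the mixed
pairs `(A⁺, Q)` and `(A⁻, P)`; all sequences are indexed by `0 ≤ k ≤ n - 1`. -/
theorem result (n : ℕ) (_hn : 1 ≤ n) :
    StronglySync (n - 1) (APlus n) (P n) ∧ StronglySync (n - 1) (AMinus n) (Q n) ∧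
    StronglySync (n - 1) (APlus n) (Q n) ∧ StronglySync (n - 1) (AMinus n) (P n) := by
  have key : ∀ a b : ℕ → ℕ,
      (∀ d, d + 1 ≤ n → V11169.Sync.A n d - V11169.Sync.F n d ≤ 2 * (a d : ℤ) ∧
        2 * (a d : ℤ) ≤ V11169.Sync.A n d + V11169.Sync.F n d) →
      (∀ d, d + 1 ≤ n → V11169.Sync.A n d - V11169.Sync.F n d ≤ 2 * (b d : ℤ) ∧
        2 * (b d : ℤ) ≤ V11169.Sync.A n d + V11169.Sync.F n d) →
      StronglySync (n - 1) a b := by
    intro a b ha hb k h1 h2
    rw [mul_comm]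
    exact V11169.Sync.sync_of_bd n a b ha hb k h1 (by omega)
  have h1 : ∀ d, d + 1 ≤ n → V11169.Sync.A n d - V11169.Sync.F n d ≤ 2 * (APlus n d : ℤ) ∧
      2 * (APlus n d : ℤ) ≤ V11169.Sync.A n d + V11169.Sync.F n d :=
    fun d hd => V11169.Sync.NN_bd n 1 d hd
  have h2 : ∀ d, d + 1 ≤ n → V11169.Sync.A n d - V11169.Sync.F n d ≤ 2 * (AMinus n d : ℤ) ∧
      2 * (AMinus n d : ℤ) ≤ V11169.Sync.A n d + V11169.Sync.F n d :=
    fun d hd => V11169.Sync.NN_bd n (-1) d hd
  have h3 : ∀ d, d + 1 ≤ n → V11169.Sync.A n d - V11169.Sync.F n d ≤ 2 * (P n d : ℤ) ∧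
      2 * (P n d : ℤ) ≤ V11169.Sync.A n d + V11169.Sync.F n d :=
    fun d hd => V11169.Sync.XX_bd n 1 d hd
  have h4 : ∀ d, d + 1 ≤ n → V11169.Sync.A n d - V11169.Sync.F n d ≤ 2 * (Q n d : ℤ) ∧
      2 * (Q n d : ℤ) ≤ V11169.Sync.A n d + V11169.Sync.F n d :=
    fun d hd => V11169.Sync.XX_bd n (-1) d hd
  exact ⟨key _ _ h1 h3, key _ _ h2 h4, key _ _ h1 h4, key _ _ h2 h3⟩

end Pool.Agent.Results.MP_713645_co.DescExcSync
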